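import Mathlib

set_option autoImplicit false

/-!
# A non-classical symmetric net with a group transitive on both kinds of pairs of points

The symmetric `(3,2)`-net (18 points, 18 blocks) admits an automorphism group which is transitive
on ordered pairs of joined points and on ordered pairs of distinct non-joined points, and it is not
classical.
-/

namespace Pool.Agent.Results.MP_36fbc5_co.EighteenPoints

open Finset Equiv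

/-- An incidence structure with point set `V`, block set `W` and incidence relation `I` is an
`(s,r,μ)`-net: there are `s²μ` points, every block has `sμ` points, and the blocks are partitioned
into `r` classes such that every class partitions the point set and two blocks of different
classes meet in exactly `μ` points. -/
structure IsNet (s r μ : ℕ) {V W : Type} [Fintype V] [Fintype W] (I : V → W → Prop) : Prop where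
  card_points : Fintype.card V = s ^ 2 * μ
  block_size : ∀ w, {v | I v w}.ncard = s * μ
  classes : ∃ c : W → Fin r, (∀ k v, ∃! w, c w = k ∧ I v w) ∧
    ∀ w w', c w ≠ c w' → {v | I v w ∧ I v w'}.ncard = μ

/-- A symmetric `(s,μ)`-net: an `(s,sμ,μ)`-net with `s ≥ 2`, `μ ≥ 1` and `sμ ≥ 3` whose dual is also
an `(s,sμ,μ)`-net. -/
def SymNet (s μ : ℕ) {V W : Type} [Fintype V] [Fintype W] (I : V → W → Prop) : Prop :=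
  2 ≤ s ∧ 1 ≤ μ ∧ 3 ≤ s * μ ∧ IsNet s (s * μ) μ I ∧ IsNet s (s * μ) μ (fun w v => I v w)

/-- `g` is an automorphism: a permutation of the points mapping blocks to blocks. -/
def IsAut {V W : Type} (I : V → W → Prop) (g : Perm V) : Prop :=
  ∀ w, ∃ w', ∀ v, I v w ↔ I (g v) w'

/-- `p` and `q` are distinct joined points. -/
def Joined {V W : Type} (I : V → W → Prop) (p q : V) : Prop := p ≠ q ∧ ∃ w, I p w ∧ I q w

/-- `p` and `q` are distinct non-joined points. -/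
def NonJoined {V W : Type} (I : V → W → Prop) (p q : V) : Prop := p ≠ q ∧ ¬ ∃ w, I p w ∧ I q w

/-- `G` is transitive on the unordered pairs of points in the relation `R`. -/
def PairTransitive {V : Type} (G : Subgroup (Perm V)) (R : V → V → Prop) : Prop :=
  ∀ p q p' q', R p q → R p' q' → ∃ g ∈ G, (g p = p' ∧ g q = q') ∨ (g p = q' ∧ g q = p')

/-- `G` is transitive on the ordered pairs of points in the relation `R`. -/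
def OrderedPairTransitive {V : Type} (G : Subgroup (Perm V)) (R : V → V → Prop) : Prop :=
  ∀ p q p' q', R p q → R p' q' → ∃ g ∈ G, g p = p' ∧ g q = q'

/-- The blocks of a classical symmetric net: the hyperplanes `{x | φ x = c}` of the affine space
`F^d` which are not parallel to the line with direction `u`, that is `φ u ≠ 0`. -/
def ClassicalBlocks (F : Type) [Field F] (d : ℕ) (u : Fin d → F) : Set (Set (Fin d → F)) :=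
  {H | ∃ (φ : (Fin d → F) →ₗ[F] F) (c : F), φ u ≠ 0 ∧ H = {x | φ x = c}}

/-- The incidence structure `I` is isomorphic to a classical symmetric net. -/
def IsClassical {V W : Type} (I : V → W → Prop) : Prop :=
  ∃ (F : Type) (_ : Field F) (_ : Fintype F) (d : ℕ) (u : Fin d → F), 2 ≤ d ∧ u ≠ 0 ∧
    ∃ (e : V ≃ (Fin d → F)) (f : W ≃ ClassicalBlocks F d u), ∀ v w, I v w ↔ e v ∈ (f w).1

/-- The statement of Q2. -/
def Q2 : Prop :=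
  ∀ (V W : Type) [Fintype V] [Fintype W] (I : V → W → Prop) (s μ : ℕ), SymNet s μ I →
    (∃ G : Subgroup (Perm V), (∀ g ∈ G, IsAut I g) ∧ PairTransitive G (Joined I) ∧
      PairTransitive G (NonJoined I)) → IsClassical I

/-- The blocks of the symmetric `(3,2)`-net. -/
def bl : Fin 18 → List (Fin 18) :=
  ![[0, 3, 6, 9, 12, 15],
    [1, 4, 7, 10, 13, 16],
    [2, 5, 8, 11, 14, 17],
    [0, 3, 7, 10, 14, 17],
    [1, 4, 8, 11, 12, 15],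
    [2, 5, 6, 9, 13, 16],
    [0, 4, 6, 11, 13, 17],
    [1, 5, 7, 9, 14, 15],
    [2, 3, 8, 10, 12, 16],
    [0, 4, 8, 9, 14, 16],
    [1, 5, 6, 10, 12, 17],
    [2, 3, 7, 11, 13, 15],
    [0, 5, 7, 11, 12, 16],
    [1, 3, 8, 9, 13, 17],
    [2, 4, 6, 10, 14, 15],
    [0, 5, 8, 10, 13, 15],
    [1, 3, 6, 11, 14, 16],
    [2, 4, 7, 9, 12, 17]]

/-- The incidence relation of the symmetric `(3,2)`-net. -/
def inc (v w : Fin 18) : Prop := v ∈ bl w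

instance (v w : Fin 18) : Decidable (inc v w) := inferInstanceAs (Decidable (v ∈ bl w))

/-- First generator. -/
def ga : Perm (Fin 18) where
  toFun := ![6, 8, 7, 12, 14, 13, 10, 9, 11, 1, 0, 2, 5, 4, 3, 17, 16, 15]
  invFun := ![10, 9, 11, 14, 13, 12, 0, 2, 1, 7, 6, 8, 3, 5, 4, 17, 16, 15]
  left_inv := by decide
  right_inv := by decide

/-- Second generator. -/
def gb : Perm (Fin 18) where
  toFun := ![17, 15, 16, 6, 7, 8, 12, 13, 14, 10, 11, 9, 1, 2, 0, 5, 3, 4]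
  invFun := ![14, 12, 13, 16, 17, 15, 3, 4, 5, 11, 9, 10, 6, 7, 8, 1, 2, 0]
  left_inv := by decide
  right_inv := by decide

/-- The generators, indexed. -/
def gn (k : Fin 2) : Perm (Fin 18) := if k = 0 then ga else gb

/-- The value of a word. -/
def val : List (Fin 2) → Perm (Fin 18)
  | [] => 1
  | k :: l => gn k * val l

/-- The action of a word. -/
def act : List (Fin 2) → Fin 18 → Fin 18
  | [], x => x
  | k :: l, x => gn k (act l x)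

theorem val_apply (l : List (Fin 2)) (x : Fin 18) : val l x = act l x := by
  induction l with
  | nil => rfl
  | cons k l ih => simp [val, act, ih]

/-- Words mapping the base pair to the other pairs. -/
def tab : Fin 18 → Fin 18 → List (Fin 2) :=
  ![![[], [], [0, 0, 0], [], [0, 1, 0, 0, 0, 1, 0, 0], [1, 0, 1, 0, 0, 1], [0, 1, 1, 1, 0, 0], [1, 1, 0, 1, 1, 0], [1, 0, 1, 1], [0, 0, 1, 0, 0, 1, 1], [1, 0, 0, 0, 1, 0, 1], [1, 1, 1, 1, 0, 1], [1, 0, 1, 1, 1, 0, 1, 1], [0, 0, 0], [0, 1, 1, 1, 0, 0, 0, 0, 0], [1, 1, 0, 0, 1, 1, 0, 0], [1, 0, 1, 0, 0, 0, 0, 1], [1, 1, 1, 0, 1, 0]],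
    ![[1, 1, 0], [], [0, 0, 1, 1, 1], [0, 1, 1, 0, 0], [1, 0, 1, 0, 1, 0, 1, 0, 0], [0, 0, 1, 1, 1, 0, 0, 0], [1, 0, 0, 1, 0, 1, 1, 0], [1, 0, 0, 0, 1, 1], [1, 1, 0, 1, 1, 1, 0, 1, 0], [0, 0, 0, 0, 1, 0, 0], [0, 1, 0, 1, 0, 1, 0], [0, 0, 1, 1, 1], [1, 0, 0, 1, 1, 1, 0, 1], [1, 1, 0, 0, 0, 0], [0, 1, 1, 1, 1, 1, 0, 0], [1, 1, 0], [0, 0, 1, 0, 0, 0, 1, 0], [0, 1, 0, 1, 1, 0, 1]],
    ![[1, 0, 1, 0, 1], [0, 1, 0, 0], [], [1, 1, 0, 0, 1, 0, 0], [0, 1, 0, 1, 0, 0, 1, 1], [1, 1, 1, 1, 1], [0, 1, 0, 0, 0, 0, 0], [1, 0, 1, 0, 1, 0, 0, 0], [0, 0, 1, 1, 0, 1], [1, 0, 0, 1, 0], [1, 0, 1, 0, 0, 1, 1, 1, 0], [0, 1, 0, 0], [0, 0, 1, 0, 1, 0], [1, 1, 1, 1, 0, 0, 1], [1, 1, 0, 0, 0, 1, 0, 1, 0], [0, 1, 1, 1, 1, 0, 0], [1, 0, 1, 0, 1], [0, 0, 0, 1, 1, 0]],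
    ![[0, 1, 1, 1, 0, 1], [0, 0, 0, 0, 1, 0, 1], [0, 1, 1, 0, 1, 0, 0, 0, 0], [], [0, 0, 1, 1], [1, 1, 0, 1, 0, 0], [0, 1, 1, 0, 1, 0], [1, 1, 0, 0, 0, 1, 1, 0], [0, 1, 0, 0, 1, 1, 0, 0], [0, 0, 0, 0, 0, 1, 0], [1, 1, 0, 1, 0, 0], [1, 1, 1, 0, 0, 1, 0], [1, 1, 1, 1, 0, 0, 1, 0, 0], [0, 0, 1, 1], [0, 1, 0, 1, 1, 0], [1, 0, 1, 0, 1, 0, 0], [0, 0, 1, 1, 0, 0, 0], [0, 0, 1, 0, 0, 1]],
    ![[1, 1, 1, 0, 1, 1], [1, 1, 0, 1, 1, 1, 0, 0], [0, 0, 0, 1, 0], [1, 1, 0, 0, 0], [], [1, 1], [0, 0, 1, 1, 0, 0, 1, 1, 1], [0, 0, 1, 0, 1], [0, 0, 0, 1, 0, 0, 0, 0], [0, 1, 1, 1, 0, 0, 1], [1, 0, 0, 1, 0, 0, 0], [1, 0, 0, 0, 0, 1], [1, 1], [0, 0, 1, 0, 0, 0, 1], [0, 0, 1, 0, 1, 0, 0, 0], [1, 0, 1, 0, 0, 1, 1, 1], [1, 1, 0, 0, 0], [1, 0, 0, 1]],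
    ![[0, 0, 0, 1, 1, 0, 1, 0], [0, 1, 0, 1, 0, 1, 1], [1, 1, 1, 0, 0, 0, 1, 1], [0, 1, 0], [1, 0, 1], [], [1, 0, 1, 1, 0, 1, 1], [1, 0, 0, 1, 1, 1, 0], [0, 1, 0], [0, 1, 0, 0, 0, 0], [1, 1, 0, 0, 1, 1, 1], [1, 0, 1], [1, 0, 0, 0, 1], [1, 0, 1, 0, 0, 0], [0, 0, 0, 0, 1, 1], [1, 0, 0, 0, 1, 0, 0, 0], [0, 1, 1, 0, 0, 1, 1], [1, 0, 0, 0, 0, 0, 1]],
    ![[1, 0, 1, 0, 1, 1, 0], [0, 0, 0, 1, 0, 0, 1, 1], [1, 0, 0, 1, 1], [1, 0, 0, 1, 1, 0, 0, 0], [0, 0, 0, 0], [1, 1, 0, 1, 0, 1, 0, 0], [], [0, 0, 0, 0], [0], [0, 1, 1, 0, 1, 1, 0], [0, 0, 1, 1, 1, 0, 0], [0, 1, 0, 1, 1], [0], [0, 1, 0, 1, 0, 0, 1], [0, 0, 1, 0, 0, 0, 1, 0, 0], [0, 1, 1, 1, 0, 1, 0], [0, 1, 0, 1, 0, 0, 0, 0, 1], [1, 0, 1, 1, 1, 0, 1]],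
    ![[1, 0, 0, 1, 0, 1, 0, 0, 0], [1, 1, 1], [0, 0, 1, 0, 0], [1, 1, 1, 0, 0, 0], [1, 1, 0, 0, 1], [0, 0, 0, 1, 0, 1, 0], [1, 1, 1, 0, 0, 0], [], [1, 1, 1], [1, 1, 0, 0, 0, 0, 1], [0, 0, 1, 0, 0, 0, 0, 0], [0, 0, 0, 1, 1, 0, 1], [0, 1, 1, 0, 0, 1, 0, 0], [1, 0, 0, 1, 0, 1], [1, 0, 0, 0, 1, 0, 0, 0, 0], [0, 0, 0, 0, 1, 1, 0], [1, 0, 0, 0, 1, 0], [1, 1, 1, 1, 0, 1, 1]],
    ![[1, 0, 0, 0, 0, 1, 1], [1, 1, 0, 0, 0, 1], [0, 0, 0, 1, 1, 1], [1, 0, 1, 1, 0, 0, 1, 1], [0, 1, 1, 0, 0, 0, 0], [1, 1, 0, 0, 0, 1, 0, 0, 0], [1, 0, 1, 0], [1, 1, 0, 1], [], [1, 1, 0, 1], [1, 0, 1, 0, 0, 0, 0], [1, 1, 1, 0, 0, 1, 1, 1], [0, 0, 1, 1, 0, 0], [1, 1, 0, 0, 1, 1, 1, 0], [1, 0, 1, 0], [0, 0, 1, 0, 1, 1, 0, 1], [0, 0, 0, 1, 0, 0, 0, 1, 0], [0, 1, 1, 0]],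
    ![[0, 0, 0, 1, 0, 0, 0, 0, 0], [0, 1, 1, 0, 0, 0, 0, 1], [0, 0, 0, 0, 1, 1, 0, 1], [1, 1, 0, 0, 1, 0, 1, 1], [1, 1, 1, 1, 1, 0, 0], [1, 0, 0, 1, 1, 0], [1, 0, 1, 0, 1, 0], [0, 0, 0, 1, 0, 0], [0, 1, 1, 1], [], [1, 1, 0, 0], [0, 1, 1, 1], [0, 1, 1, 1, 0, 0, 0], [0, 0, 0, 0, 1, 0, 1, 0], [1, 1, 0, 0], [1, 0, 1, 1, 0, 1], [0, 1, 0, 0, 0, 1, 0], [1, 1, 0, 0, 0, 0, 0]],
    ![[1, 1, 1, 0, 0], [1, 0, 1, 1, 1, 0, 0, 0], [0, 0, 1, 0, 1, 1], [1, 0, 1, 0, 0, 0, 1, 0], [1, 1, 1, 0, 0, 0, 0, 0], [0, 0], [0, 1, 0, 1, 0, 1, 1, 0], [0, 1, 0, 0, 1, 1], [1, 1, 0, 0, 1, 1, 0], [0, 0, 0, 0, 0], [], [0, 0], [1, 1, 0, 1, 0, 1, 0], [1, 0, 0, 0, 1, 0, 0], [0, 0, 0, 0, 0], [0, 1, 0, 1, 1, 1, 0, 1], [1, 0, 0, 0, 0, 1, 1, 0, 1], [0, 0, 1, 1, 1, 0, 1, 0]],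
    ![[1, 0, 0, 0, 0, 0], [0, 1, 1, 0, 1], [1, 1, 0, 0, 0, 1, 0, 0], [0, 1, 0, 1, 0], [1, 0, 0, 1, 1, 1, 0, 1, 0], [0, 0, 0, 1, 1, 0, 0], [0, 1, 0, 0, 0, 0, 1, 1], [0, 0, 0, 0, 1, 1, 1], [1, 0, 0], [1, 0, 0], [0, 1, 0, 1, 0], [], [1, 0, 1, 0, 1, 0, 1, 1, 0], [1, 0, 1, 0, 0, 1, 1], [0, 0, 1, 1, 0, 0, 0, 0], [0, 0, 1, 1, 0], [1, 0, 0, 1, 0, 1, 1], [1, 1, 1, 1, 0, 0]],
    ![[0, 1, 1, 0, 1, 0, 0], [1, 0], [0, 1, 1, 1, 0, 0, 1, 0], [0, 0, 1, 0, 1, 1, 0], [0, 0, 0, 1, 1], [1, 0, 1, 1, 1, 0, 1, 0], [0, 0, 1, 1, 1, 0, 1], [1, 0, 0, 0, 0], [0, 0, 0, 0, 0, 1, 0, 1], [1, 0, 1, 0, 1, 1], [0, 0, 1, 1, 0, 1, 0], [1, 0, 0, 1, 1, 1, 0, 0], [], [1, 0, 0, 0, 0], [1, 0], [0, 0, 0, 1, 0, 0, 1], [1, 1, 0, 0, 1, 1], [0, 1, 0, 1, 0, 1, 0, 0]],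
    ![[0, 1, 1, 0, 0, 1, 1, 1], [0, 0, 1, 0, 0, 0, 0], [0, 1, 0, 1], [1, 1, 0, 0, 0, 1, 0], [0, 1, 0, 1, 0, 0, 0], [0, 1, 0, 0, 0, 1], [1, 1, 1, 1, 0, 0, 0], [1, 1, 1, 0, 0, 1], [1, 0, 0, 0, 1, 0, 1, 0], [0, 1, 0, 0, 1, 1, 1, 0], [1, 1, 1, 0, 0, 0, 0, 1], [0, 0, 1, 0], [0, 0, 1, 0], [], [0, 1, 0, 1], [1, 1, 1, 1], [1, 0, 0, 1, 0, 0], [0, 1, 0, 0, 0, 1, 0, 0, 0]],
    ![[1, 1, 0, 1, 0], [1, 0, 0, 1, 1, 0, 0], [0, 1, 0, 0, 0, 0, 1], [0, 0, 0, 1, 0, 1, 0, 0, 0], [1, 0, 1, 1, 0], [0, 1, 1], [0, 1, 1, 1, 0, 1, 1], [0, 0, 0, 0, 1, 0], [0, 1, 1, 0, 1, 1, 1, 0, 0], [0, 0, 0, 1, 0, 1], [1, 1, 1, 0, 1], [1, 1, 0, 1, 0, 0, 0, 0], [1, 1, 0, 1, 0], [0, 1, 1], [], [0, 1, 0, 0, 1], [0, 1, 1, 0, 0, 0], [1, 1, 0, 0, 0, 0, 1, 1]],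
    ![[0, 0, 0, 0, 0, 1], [0, 0, 0, 1, 0, 0, 0], [1, 1, 1, 0, 0, 0, 0], [0, 1, 1, 0, 1, 1], [0, 0, 1, 1, 1, 0], [1, 1, 1, 0], [0, 0, 0, 1], [0, 1, 0, 0, 0], [0, 0, 1, 0, 0, 1, 1, 1], [1, 0, 0, 1, 1, 1], [0, 1], [1, 0, 1, 0, 1, 0, 1, 0], [1, 1, 0, 0, 1, 0, 1, 1, 0], [1, 1, 0, 0, 0, 1, 1], [0, 1, 1, 1, 1, 0, 1, 0], [], [0, 1, 0, 0, 0], [0, 1]],
    ![[0, 1, 1, 0, 0, 1, 0], [0, 1, 0, 1, 0, 0], [1, 1, 1, 1, 1, 0, 0, 1], [1, 1, 0, 1, 0, 1], [1, 0, 0, 0, 1, 1, 0], [1, 0, 1, 1, 1, 1, 0, 0], [1, 1, 1, 0, 0, 1, 0, 0], [0, 1, 1, 1, 1, 1, 0, 0, 1], [1, 1, 1, 1, 1, 1], [1, 0, 1, 0, 0], [1, 1, 0, 0, 1, 0], [0, 1, 1, 1, 1, 1, 1], [0, 1, 1, 0, 1, 0, 1], [1, 1, 0, 1, 0, 1, 0, 0, 0], [1, 0, 0, 1, 1, 0, 1], [1, 0, 1, 0, 0], [], [0, 1, 0, 1, 0, 0]],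
    ![[0, 0, 1], [0, 1, 0, 0, 1, 1, 1], [1, 0, 0, 0], [0, 0, 1, 1, 1, 1, 0, 1, 0], [1, 1, 1, 1, 0, 1, 0], [1, 1, 1, 0, 0, 1, 1, 0, 0], [1], [0, 1, 1, 1, 0, 0, 0, 0], [1, 1, 0, 1, 0, 0, 1], [0, 0, 1, 0, 0, 0], [0, 0, 0, 0, 1], [1, 1, 0, 0, 0, 1, 0, 1], [1, 0, 1, 1, 1, 0, 0], [0, 1, 1, 1, 0], [1, 1, 0, 1, 1], [1], [1, 0, 0, 0], []]]

/-- The full automorphism group. -/
def Aut : Subgroup (Perm (Fin 18)) where
  carrier := {g | IsAut inc g ∧ IsAut inc g⁻¹}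
  one_mem' := by
    constructor <;> exact fun w => ⟨w, fun v => by simp⟩
  mul_mem' := by
    rintro a b ⟨ha, ha'⟩ ⟨hb, hb'⟩
    constructor
    · intro w
      obtain ⟨w1, h1⟩ := hb w
      obtain ⟨w2, h2⟩ := ha w1
      exact ⟨w2, fun v => by rw [h1, h2]; rfl⟩
    · intro w
      obtain ⟨w1, h1⟩ := ha' w
      obtain ⟨w2, h2⟩ := hb' w1
      exact ⟨w2, fun v => by rw [h1, h2, mul_inv_rev]; rfl⟩
  inv_mem' := by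
    rintro a ⟨ha, ha'⟩
    exact ⟨ha', by simpa using ha⟩

theorem aut_a : ga ∈ Aut := by
  constructor
  · intro w; revert w; decide +kernel
  · intro w; revert w; decide +kernel

theorem aut_b : gb ∈ Aut := by
  constructor
  · intro w; revert w; decide +kernel
  · intro w; revert w; decide +kernel

theorem aut_val (l : List (Fin 2)) : val l ∈ Aut := by
  induction l with
  | nil => exact Aut.one_mem
  | cons k l ih =>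
    refine Aut.mul_mem ?_ ih
    unfold gn
    split
    · exact aut_a
    · exact aut_b

theorem joined_tab : ∀ p q : Fin 18, p ≠ q → (∃ w, inc p w ∧ inc q w) →
    act (tab p q) 0 = p ∧ act (tab p q) 3 = q := by
  decide +kernel

theorem nonjoined_tab : ∀ p q : Fin 18, p ≠ q → (¬ ∃ w, inc p w ∧ inc q w) →
    act (tab p q) 0 = p ∧ act (tab p q) 1 = q := by
  decide +kernel

theorem trans_joined : OrderedPairTransitive Aut (Joined inc) := by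
  rintro p q p' q' ⟨h1, h2⟩ ⟨h3, h4⟩
  obtain ⟨a1, a2⟩ := joined_tab p q h1 h2
  obtain ⟨a3, a4⟩ := joined_tab p' q' h3 h4
  rw [← val_apply] at a1 a2 a3 a4
  refine ⟨val (tab p' q') * (val (tab p q))⁻¹, Aut.mul_mem (aut_val _) (Aut.inv_mem (aut_val _)), ?_, ?_⟩
  · rw [Perm.mul_apply, Perm.inv_eq_iff_eq.2 a1.symm, a3]
  · rw [Perm.mul_apply, Perm.inv_eq_iff_eq.2 a2.symm, a4]

theorem trans_nonjoined : OrderedPairTransitive Aut (NonJoined inc) := by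
  rintro p q p' q' ⟨h1, h2⟩ ⟨h3, h4⟩
  obtain ⟨a1, a2⟩ := nonjoined_tab p q h1 h2
  obtain ⟨a3, a4⟩ := nonjoined_tab p' q' h3 h4
  rw [← val_apply] at a1 a2 a3 a4
  refine ⟨val (tab p' q') * (val (tab p q))⁻¹, Aut.mul_mem (aut_val _) (Aut.inv_mem (aut_val _)), ?_, ?_⟩
  · rw [Perm.mul_apply, Perm.inv_eq_iff_eq.2 a1.symm, a3]
  · rw [Perm.mul_apply, Perm.inv_eq_iff_eq.2 a2.symm, a4]

/-- The parallel class of a block (and the class of a point). -/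
def cl (w : Fin 18) : Fin (3 * 2) := ⟨w.val / 3, by omega⟩

theorem ncard_eq (P : Fin 18 → Prop) [DecidablePred P] (k : ℕ)
    (h : #(univ.filter P) = k) : {v | P v}.ncard = k := by
  rw [Set.ncard_eq_toFinset_card', ← h]
  congr 1
  ext v
  simp

theorem symNet : SymNet 3 2 inc := by
  refine ⟨by norm_num, by norm_num, by norm_num, ⟨by decide, ?_, cl, ?_, ?_⟩,
    ⟨by decide, ?_, cl, ?_, ?_⟩⟩
  · intro w
    exact ncard_eq _ _ (by revert w; decide +kernel)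
  · show ∀ (k : Fin (3 * 2)) (v : Fin 18), ∃ w, (cl w = k ∧ inc v w) ∧
      ∀ y, (cl y = k ∧ inc v y) → y = w
    decide +kernel
  · intro w w' h
    exact ncard_eq _ _ (by revert w w'; decide +kernel)
  · intro w
    exact ncard_eq _ _ (by revert w; decide +kernel)
  · show ∀ (k : Fin (3 * 2)) (v : Fin 18), ∃ w, (cl w = k ∧ inc w v) ∧
      ∀ y, (cl y = k ∧ inc y v) → y = w
    decide +kernel
  · intro w w' h
    exact ncard_eq _ _ (by revert w w'; decide +kernel)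

theorem not_classical {W : Type} (I : Fin 18 → W → Prop) : ¬ IsClassical I := by
  rintro ⟨F, hF, hF', d, u, hd, -, e, -⟩
  have h := Fintype.card_congr e
  rw [Fintype.card_fin, Fintype.card_fun, Fintype.card_fin] at h
  obtain ⟨q, hq⟩ : ∃ q, q = Fintype.card F := ⟨_, rfl⟩
  rw [← hq] at h
  have hq5 : q < 5 := by
    by_contra hcon
    push Not at hcon
    have : 5 ^ 2 ≤ q ^ d := (Nat.pow_le_pow_left hcon 2).trans (Nat.pow_le_pow_right (by omega) hd)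
    omega
  have hd5 : d < 5 ∨ q < 2 := by
    by_contra hcon
    push Not at hcon
    have : 2 ^ 5 ≤ q ^ d := (Nat.pow_le_pow_left hcon.2 5).trans (Nat.pow_le_pow_right (by omega) hcon.1)
    omega
  rcases hd5 with hd5 | hq2
  · interval_cases q <;> interval_cases d <;> omega
  · interval_cases q
    · rw [zero_pow (by omega)] at h; omega
    · rw [one_pow] at h; omega

/-- **The symmetric (3,2)-net is a non-classical symmetric net with an automorphism group which is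
transitive on joined pairs and on non-joined pairs.** -/
theorem result :
    (∃ I : Fin 18 → Fin 18 → Prop, SymNet 3 2 I ∧ ¬ IsClassical I ∧
      ∃ G : Subgroup (Perm (Fin 18)), (∀ g ∈ G, IsAut I g) ∧
        OrderedPairTransitive G (Joined I) ∧ OrderedPairTransitive G (NonJoined I)) ∧
    ¬ Q2 := by
  refine ⟨⟨inc, symNet, not_classical inc, Aut, fun g hg => hg.1, trans_joined, trans_nonjoined⟩, ?_⟩
  intro hQ
  refine not_classical inc (hQ (Fin 18) (Fin 18) inc 3 2 symNet ⟨Aut, fun g hg => hg.1, ?_, ?_⟩)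
  · intro p q p' q' h h'
    obtain ⟨g, hg, h1, h2⟩ := trans_joined p q p' q' h h'
    exact ⟨g, hg, Or.inl ⟨h1, h2⟩⟩
  · intro p q p' q' h h'
    obtain ⟨g, hg, h1, h2⟩ := trans_nonjoined p q p' q' h h'
    exact ⟨g, hg, Or.inl ⟨h1, h2⟩⟩

end Pool.Agent.Results.MP_36fbc5_co.EighteenPoints
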